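import Pool.Agent.Helper51.TSL.C

/-!
# MP_4eb715_lc: it is decidable whether a regular tree language is a tree substitution language

The definitions are in `Pool.Agent.Helper51.TSL.D`.  A ranked alphabet is given by the list `rk` of
the ranks of its symbols `0, …, rk.length - 1`.

Idea of the proof.  Determinize the automaton.  If `L = L(G)`, let `Z a` be the set of states
reached by the ground trees derived from a leaf labelled `a`.  For a fixed guess of `Z` call a
fragment admissible if it maps states from the sets `Z b` at its leaves to states in `Z a`,
`a` being its root label.  Then `L` is a tree substitution language if and only if for some `Z`
there is `N` such that every tree of `L` can be cut into admissible fragments of height at most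
`N`.  The boundedness of this cost is characterised by finite certificates (a game on triples of a
state and two sets of marked types, with ranks), and the search for certificates is primitive
recursive.
-/

set_option autoImplicit false

namespace Pool.Agent.Results.MP_4eb715_lc.Decidable

open Pool.Agent.Helper51.TSL

/-- It is decidable, given a ranked alphabet (as the list of ranks `c.1`) and a nondeterministic
tree automaton over it (with transitions `c.2.1` and final states `c.2.2`), whether the tree
language of the automaton is a tree substitution language over the alphabet. -/
theorem result : ComputablePred fun c : List ℕ × List (ℕ × List ℕ × ℕ) × List ℕ =>
    IsTSL c.1 (autLang c.1 c.2.1 c.2.2) := by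
  obtain ⟨i, h⟩ := primrecPred_isTSL
  exact ⟨i, h.to_comp⟩

end Pool.Agent.Results.MP_4eb715_lc.Decidable
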